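import Pool.Agent.Helper57.SS.Goals

open MeasureTheory ProbabilityTheory Filter Topology

namespace Pool.Agent.Helper8.SS

open Pool.Agent.Helper57.SS

/-- the translates of `S` by the members of `D` are pairwise disjoint -/
def Pk (T S : Set Ci) (D : Finset Ci) : Prop :=
  (∀ t ∈ D, t ∈ T) ∧ ∀ t ∈ D, ∀ t' ∈ D, t ≠ t' → Disjoint {x : Ci | x - t ∈ S} {x : Ci | x - t' ∈ S}

lemma pk_card (ν : Measure Ci) [IsProbabilityMeasure ν] (T S : Set Ci) (hS : MeasurableSet S) (n : ℕ)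
    (hT : ∀ t ∈ T, 1 / ((n : ℝ) + 1) ≤ ν.real {x | x - t ∈ S}) (D : Finset Ci) (h : Pk T S D) :
    D.card ≤ n + 1 := by
  have hn : (0 : ℝ) < (n : ℝ) + 1 := by positivity
  have hm : ∀ t ∈ D, MeasurableSet {x : Ci | x - t ∈ S} := fun t _ =>
    (measurable_id.sub_const t) hS
  have h1 : ν.real (⋃ t ∈ D, {x : Ci | x - t ∈ S}) = ∑ t ∈ D, ν.real {x : Ci | x - t ∈ S} :=
    measureReal_biUnion_finset (fun t ht t' ht' hne => h.2 t ht t' ht' hne) hm
  have h2 : ν.real (⋃ t ∈ D, {x : Ci | x - t ∈ S}) ≤ 1 := measureReal_le_one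
  have h3 : ∑ t ∈ D, 1 / ((n : ℝ) + 1) ≤ ∑ t ∈ D, ν.real {x : Ci | x - t ∈ S} :=
    Finset.sum_le_sum fun t ht => hT t (h.1 t ht)
  rw [Finset.sum_const, nsmul_eq_mul] at h3
  have h4 : (D.card : ℝ) * (1 / ((n : ℝ) + 1)) ≤ 1 := by linarith
  rw [mul_one_div, div_le_one hn] at h4
  exact_mod_cast h4

lemma pk_max (ν : Measure Ci) [IsProbabilityMeasure ν] (T S : Set Ci) (hS : MeasurableSet S) (n : ℕ)
    (hT : ∀ t ∈ T, 1 / ((n : ℝ) + 1) ≤ ν.real {x | x - t ∈ S}) :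
    ∃ D : Finset Ci, Pk T S D ∧ ∀ t ∈ T, t ∈ D ∨ ∃ t' ∈ D, ∃ x : Ci, x - t ∈ S ∧ x - t' ∈ S := by
  classical
  let A : Set ℕ := {k | ∃ D : Finset Ci, Pk T S D ∧ D.card = k}
  have hA : A.Nonempty := ⟨0, ∅, ⟨by simp, by simp⟩, rfl⟩
  have hB : BddAbove A := ⟨n + 1, by rintro _ ⟨D, hD, rfl⟩; exact pk_card ν T S hS n hT D hD⟩
  obtain ⟨D, hD, hc⟩ := Nat.sSup_mem hA hB
  refine ⟨D, hD, fun t ht => ?_⟩
  by_contra hcon
  rw [not_or] at hcon
  obtain ⟨h1, h2⟩ := hcon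
  have hdis : ∀ t' ∈ D, Disjoint {x : Ci | x - t ∈ S} {x : Ci | x - t' ∈ S} := by
    intro t' ht'
    rw [Set.disjoint_left]
    intro x hx hx'
    exact h2 ⟨t', ht', x, hx, hx'⟩
  have hP : Pk T S (insert t D) := by
    refine ⟨fun s hs => ?_, fun s hs s' hs' hne => ?_⟩
    · rcases Finset.mem_insert.1 hs with h | h
      · rw [h]; exact ht
      · exact hD.1 s h
    · rcases Finset.mem_insert.1 hs with h | h
      · rcases Finset.mem_insert.1 hs' with h' | h'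
        · exact absurd (h.trans h'.symm) hne
        · rw [h]; exact hdis s' h'
      · rcases Finset.mem_insert.1 hs' with h' | h'
        · rw [h']; exact (hdis s h).symm
        · exact hD.2 s h s' h' hne
  have hle : (insert t D).card ≤ sSup A := le_csSup hB ⟨_, hP, rfl⟩
  rw [Finset.card_insert_of_notMem h1, hc] at hle
  omega

theorem gCOV : G_COV := by
  classical
  intro hSHB ν _ ε hε hε8 hbad
  have zero : ∀ e, 0 ≤ e → (0 : Ci) ∈ Sh ν e := fun e he => (hSHB ν e e).1 he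
  have neg : ∀ e d, d ∈ Sh ν e → -d ∈ Sh ν e := fun e => (hSHB ν e e).2.1
  have add : ∀ e e' d d', d ∈ Sh ν e → d' ∈ Sh ν e' → d + d' ∈ Sh ν (e + e') :=
    fun e e' => (hSHB ν e e').2.2.1
  have five : ∀ e d, d ∈ Sh ν e → ∀ A, MeasurableSet A →
      ν.real A ≤ ν.real ((fun x => x + d) ⁻¹' A) + e := fun e => (hSHB ν e e).2.2.2.2.1
  have cl : ∀ e, IsClosed (Sh ν e) := fun e => (hSHB ν e e).2.2.2.2.2
  have sub : ∀ e e' d d', d ∈ Sh ν e → d' ∈ Sh ν e' → d - d' ∈ Sh ν (e + e') := by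
    intro e e' d d' hd hd'
    rw [sub_eq_add_neg]
    exact add _ _ _ _ hd (neg _ _ hd')
  have hS : MeasurableSet (Sh ν ε) := (cl ε).measurableSet
  have hs : MeasurableSet {p : Ci × Ci | p.2 - p.1 ∈ Sh ν ε} :=
    (measurable_snd.sub measurable_fst) hS
  have hm : Measurable fun t : Ci => ν {x | x - t ∈ Sh ν ε} := measurable_measure_prodMk_left hs
  have hmr : Measurable fun t : Ci => ν.real {x | x - t ∈ Sh ν ε} := hm.ennreal_toReal
  let T : ℕ → Set Ci := fun n => {t | 1 / ((n : ℝ) + 1) ≤ ν.real {x | x - t ∈ Sh ν ε}}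
  have hTm : ∀ n, MeasurableSet (T n) := fun n => measurableSet_le measurable_const hmr
  have hTmono : Monotone T := by
    intro a b hab t ht
    have ht' : 1 / ((a : ℝ) + 1) ≤ ν.real {x | x - t ∈ Sh ν ε} := ht
    show 1 / ((b : ℝ) + 1) ≤ ν.real {x | x - t ∈ Sh ν ε}
    refine le_trans ?_ ht'
    have : (a : ℝ) ≤ b := by exact_mod_cast hab
    exact one_div_le_one_div_of_le (by positivity) (by linarith)
  have hbm : MeasurableSet {t | ν {x | x - t ∈ Sh ν ε} = 0} := hm (measurableSet_singleton 0)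
  have hU : ({t | ν {x | x - t ∈ Sh ν ε} = 0})ᶜ ⊆ ⋃ n, T n := by
    intro t ht
    have h1 : 0 < ν.real {x | x - t ∈ Sh ν ε} :=
      ENNReal.toReal_pos ht (measure_ne_top _ _)
    obtain ⟨n, hn⟩ := exists_nat_one_div_lt h1
    exact Set.mem_iUnion.2 ⟨n, hn.le⟩
  have hUm : 1 - ε ≤ ν.real (⋃ n, T n) := by
    have h1 := probReal_compl_eq_one_sub (μ := ν) hbm
    have h2 : ν.real ({t | ν {x | x - t ∈ Sh ν ε} = 0})ᶜ ≤ ν.real (⋃ n, T n) := measureReal_mono hU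
    linarith
  have hlim : Tendsto (fun n => ν.real (T n)) atTop (𝓝 (ν.real (⋃ n, T n))) :=
    (ENNReal.tendsto_toReal (measure_ne_top _ _)).comp (tendsto_measure_iUnion_atTop hTmono)
  obtain ⟨n, hn⟩ := (hlim.eventually (lt_mem_nhds (show 1 - 2 * ε < ν.real (⋃ n, T n) by
    linarith))).exists
  obtain ⟨D, hD, hmax⟩ := pk_max ν (T n) (Sh ν ε) hS n (fun t ht => ht)
  let K : Set Ci := ⋃ t ∈ D, {x | x - t ∈ Sh ν (2 * ε)}
  have hKm : MeasurableSet K := D.measurableSet_biUnion fun t _ =>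
    (measurable_id.sub_const t) (cl (2 * ε)).measurableSet
  have hTK : T n ⊆ K := by
    intro t ht
    rcases hmax t ht with h | ⟨t', ht', x, hx, hx'⟩
    · refine Set.mem_iUnion₂.2 ⟨t, h, ?_⟩
      show t - t ∈ Sh ν (2 * ε)
      rw [sub_self]; exact zero _ (by linarith)
    · refine Set.mem_iUnion₂.2 ⟨t', ht', ?_⟩
      show t - t' ∈ Sh ν (2 * ε)
      have h1 := sub _ _ _ _ hx' hx
      rw [show x - t' - (x - t) = t - t' by abel, show ε + ε = 2 * ε by ring] at h1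
      exact h1
  have hK : 3 / 4 ≤ ν.real K := by
    have := measureReal_mono (μ := ν) hTK (measure_ne_top _ _)
    linarith
  refine ⟨(D ×ˢ D).image fun p => p.2 - p.1, fun d hd => ?_⟩
  have h5 := five _ d hd K hKm
  have hK'm : MeasurableSet ((fun x => x + d) ⁻¹' K) := (measurable_id.add_const d) hKm
  have hne : (K ∩ ((fun x => x + d) ⁻¹' K)).Nonempty := by
    rw [Set.nonempty_iff_ne_empty]
    intro h
    have h6 := measureReal_union_add_inter (μ := ν) (s := K) hK'm (measure_ne_top _ _) (measure_ne_top _ _)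
    rw [h, measureReal_empty, add_zero] at h6
    have h7 : ν.real (K ∪ (fun x => x + d) ⁻¹' K) ≤ 1 := measureReal_le_one
    linarith
  obtain ⟨x, hx, hx'⟩ := hne
  obtain ⟨t, ht, hxt⟩ := Set.mem_iUnion₂.1 hx
  obtain ⟨t', ht', hxt'⟩ := Set.mem_iUnion₂.1 (Set.mem_preimage.1 hx')
  refine ⟨t' - t, Finset.mem_image.2 ⟨(t, t'), Finset.mem_product.2 ⟨ht, ht'⟩, rfl⟩, ?_⟩
  have h8 := sub _ _ _ _ hxt' hxt
  rw [show x + d - t' - (x - t) = d - (t' - t) by abel, show 2 * ε + 2 * ε = 4 * ε by ring] at h8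
  exact h8

end Pool.Agent.Helper8.SS
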