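import Pool.Agent.Helper57.SS.Goals

open MeasureTheory ProbabilityTheory Filter Topology

namespace Pool.Agent.Helper8.SS

open Pool.Agent.Helper57.SS

lemma model_swap {a b : ℝ} {Ω : Type} [MeasurableSpace Ω] {P : Measure Ω} {ξ η : ℕ → Ω → ℕ}
    (h : Model a b P ξ η) : Model b a P η ξ := by
  obtain ⟨h1, h2, h3, h4, h5⟩ := h
  refine ⟨h2, h1, ?_, h5, h4⟩
  have h6 := h3.precomp (g := (Sum.swap : ℕ ⊕ ℕ → ℕ ⊕ ℕ)) Sum.swap_leftInverse.injective
  have e : (fun i : ℕ ⊕ ℕ => Sum.elim ξ η (Sum.swap i)) = fun i : ℕ ⊕ ℕ => Sum.elim η ξ i := by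
    funext i; cases i <;> rfl
  rw [← e]; exact h6

theorem gWP : G_WP := by
  intro hWH hWC hWG hWR hWS a b ha ha1 hb hb1 Ω _ P _ ξ η hM
  have h1 := hWH hWC hWG hWR hWS a b ha ha1 hb hb1 Ω P ξ η hM
  have h2 := hWH hWC hWG hWR hWS b a hb hb1 ha ha1 Ω P η ξ (model_swap hM)
  filter_upwards [h1, h2] with ω k1 k2
  refine ⟨k1.1, k1.2.1, fun z hz => ?_⟩
  by_cases h : z.2 = 0
  · have hz1 : z.1 ≠ 0 := fun h' => hz (Prod.ext h' h)
    have := k2.2.2 (z.2, z.1) hz1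
    refine this.congr fun N => ?_
    congr 1
    refine Finset.sum_congr rfl fun k _ => ?_
    simp only [e2]
    exact mul_comm _ _
  · exact k1.2.2 z h

end Pool.Agent.Helper8.SS
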