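import Pool.Agent.Helper57.SS.Goals2

open MeasureTheory ProbabilityTheory Filter Topology
open scoped ENNReal

namespace Pool.Agent.Helper8.SS

open Pool.Agent.Helper57.SS

/-- the trigonometric polynomial -/
noncomputable def tP (c : ℤ →₀ ℂ) (z : Ci) : ℂ := c.sum fun n u => u * fourier n z

lemma tP_cont (c : ℤ →₀ ℂ) : Continuous (tP c) := by
  unfold tP Finsupp.sum
  exact continuous_finsetSum _ fun n _ => continuous_const.mul (fourier n).continuous

lemma tim {μ : Measure Ci} [IsFiniteMeasure μ] (f : ℕ → Ci → ℂ) (hf : ∀ j, Continuous (f j))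
    (g : Ci → ℂ) (hg : Continuous g)
    (h : Tendsto (fun j => ∫ z, ‖f j z - g z‖ ^ 2 ∂μ) atTop (𝓝 0)) :
    TendstoInMeasure μ f atTop g := by
  refine tendstoInMeasure_of_tendsto_eLpNorm (p := 2) two_ne_zero
    (fun j => (hf j).aestronglyMeasurable) hg.aestronglyMeasurable ?_
  have e : ∀ j, eLpNorm (f j - g) 2 μ = ENNReal.ofReal ((∫ z, ‖f j z - g z‖ ^ 2 ∂μ) ^ (2⁻¹ : ℝ)) := by
    intro j
    have hm : MemLp (f j - g) 2 μ := by
      have hc : Continuous (f j - g) := (hf j).sub hg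
      obtain ⟨C, hC⟩ := isCompact_univ.exists_bound_of_continuousOn hc.continuousOn
      exact MemLp.of_bound hc.aestronglyMeasurable C
        (Filter.Eventually.of_forall fun z => hC z (Set.mem_univ z))
    rw [hm.eLpNorm_eq_integral_rpow_norm two_ne_zero ENNReal.ofNat_ne_top]
    have e2 : (2 : ℝ≥0∞).toReal = 2 := rfl
    rw [e2]
    congr 2
    refine integral_congr_ae (Filter.Eventually.of_forall fun z => ?_)
    show ‖f j z - g z‖ ^ (2 : ℝ) = ‖f j z - g z‖ ^ 2
    exact Real.rpow_two _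
  simp only [e]
  have h1 : Tendsto (fun j => (∫ z, ‖f j z - g z‖ ^ 2 ∂μ) ^ (2⁻¹ : ℝ)) atTop (𝓝 (0 ^ (2⁻¹ : ℝ))) :=
    h.rpow_const (Or.inr (by norm_num))
  rw [Real.zero_rpow (by norm_num)] at h1
  have h2 := ENNReal.tendsto_ofReal h1
  rwa [ENNReal.ofReal_zero] at h2

theorem gES2 : G_ES2 := by
  intro σ _ c h0 h1
  have t0 : TendstoInMeasure σ (fun j => tP (c j)) atTop (fun _ => 0) := by
    refine tim _ (fun j => tP_cont (c j)) _ continuous_const ?_
    simp only [sub_zero]
    exact h0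
  have t1 : TendstoInMeasure (volume : Measure Ci) (fun j => tP (c j)) atTop (fun _ => 1) :=
    tim _ (fun j => tP_cont (c j)) _ continuous_const h1
  obtain ⟨ns, hns, a0⟩ := t0.exists_seq_tendsto_ae
  have t2 : TendstoInMeasure (volume : Measure Ci) (fun j => tP (c (ns j))) atTop (fun _ => 1) := by
    refine tim _ (fun j => tP_cont (c (ns j))) _ continuous_const ?_
    exact h1.comp hns.tendsto_atTop
  obtain ⟨ms, hms, a1⟩ := t2.exists_seq_tendsto_ae
  refine Measure.MutuallySingular.mk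
    (s := {z | ¬ Tendsto (fun i => tP (c (ns (ms i))) z) atTop (𝓝 0)})
    (t := {z | ¬ Tendsto (fun i => tP (c (ns (ms i))) z) atTop (𝓝 1)}) ?_ ?_ ?_
  · have : ∀ᵐ z ∂σ, Tendsto (fun i => tP (c (ns (ms i))) z) atTop (𝓝 0) := by
      filter_upwards [a0] with z hz
      exact hz.comp hms.tendsto_atTop
    exact this
  · exact a1
  · intro z _
    by_cases hz : Tendsto (fun i => tP (c (ns (ms i))) z) atTop (𝓝 0)
    · right
      intro hz'
      exact zero_ne_one (tendsto_nhds_unique hz hz')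
    · left; exact hz

end Pool.Agent.Helper8.SS
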