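import Pool.Agent.Helper61.SS.Goals

/-!
# Packet SS-QN: elements of the radical from quasinilpotent products
-/

set_option autoImplicit false

namespace Pool.Agent.Helper8.SS

open Pool.Agent.Helper61.SS

universe v

theorem spectrum_of_radius_zero {R : Type v} [Ring R] [Algebra ℂ R] {a : R}
    (h : spectralRadius ℂ a = 0) {k : ℂ} (hk : k ∈ spectrum ℂ a) : k = 0 := by
  have h1 : (‖k‖₊ : ENNReal) ≤ spectralRadius ℂ a := by
    unfold spectralRadius
    exact le_iSup₂ (f := fun (k : ℂ) (_ : k ∈ spectrum ℂ a) => (‖k‖₊ : ENNReal)) k hk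
  rw [h] at h1
  simpa using h1

theorem isUnit_one_sub {R : Type v} [Ring R] [Algebra ℂ R] {a : R}
    (h : spectralRadius ℂ a = 0) : IsUnit (1 - a) := by
  by_contra h1
  have h2 : (1 : ℂ) ∈ spectrum ℂ a := by
    rw [spectrum.mem_iff]
    simpa using h1
  exact one_ne_zero (spectrum_of_radius_zero h h2)

theorem gQN : G_QN.{v} := by
  intro B _ _ _ _ _ x hx
  rw [← Ideal.jacobson_bot, Ideal.mem_jacobson_iff]
  intro y
  have e1 : (((y * (x : Unitization ℂ B)).snd : B) : Unitization ℂ B) = y * (x : Unitization ℂ B) := by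
    ext
    · simp
    · simp
  have e2 : (((y * (x : Unitization ℂ B) * y).snd : B) : Unitization ℂ B) =
      y * (x : Unitization ℂ B) * y := by
    ext
    · simp
    · simp
  have h1 := isUnit_one_sub (hx ((y * (x : Unitization ℂ B) * y).snd)
    ((y * (x : Unitization ℂ B)).snd * (y * (x : Unitization ℂ B)).snd))
  rw [Unitization.inr_mul, Unitization.inr_mul, Unitization.inr_mul, e1, e2] at h1
  obtain ⟨w, hw⟩ := h1.exists_left_inv
  refine ⟨w * (1 - y * (x : Unitization ℂ B) + (y * (x : Unitization ℂ B)) * (y * (x : Unitization ℂ B)) -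
    (y * (x : Unitization ℂ B)) * (y * (x : Unitization ℂ B)) * (y * (x : Unitization ℂ B))), ?_⟩
  rw [Submodule.mem_bot, sub_eq_zero]
  refine Eq.trans ?_ hw
  simp only [mul_sub, mul_add, sub_mul, add_mul, mul_one, mul_assoc]
  abel

end Pool.Agent.Helper8.SS
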